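import Mathlib

set_option autoImplicit false
set_option linter.unusedSectionVars false

/-!
# Linear programming duality with box constraints (job 3931, HT-4)
-/

namespace Pool.Agent.TH948.HT

open Finset
open scoped Classical

theorem lp_dual {X Y : Type} (F : Finset X) (E : Finset Y) (A : X → Y → ℝ) (b : X → ℝ)
    (w₀ : Y → ℝ) (hw₀ : ∀ e, 0 ≤ w₀ e)
    (h : ∀ y : X → ℝ, ∑ f ∈ F, y f * (b f - ∑ e ∈ E, A f e * w₀ e)
      ≤ ∑ e ∈ E, w₀ e * |∑ f ∈ F, A f e * y f|) :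
    ∃ w : Y → ℝ, (∀ e ∈ E, 0 ≤ w e ∧ w e ≤ 2 * w₀ e) ∧ ∀ f ∈ F, ∑ e ∈ E, A f e * w e = b f := by
  classical
  obtain ⟨Φ, hΦ⟩ : ∃ Φ : (E → ℝ) →ₗ[ℝ] (F → ℝ), ∀ w f, Φ w f = ∑ e : E, A f.1 e.1 * w e := by
    refine ⟨⟨⟨fun w f => ∑ e : E, A f.1 e.1 * w e, ?_⟩, ?_⟩, fun w f => rfl⟩
    · intro w w'
      funext f
      simp only [Pi.add_apply, mul_add, sum_add_distrib]
    · intro c w
      funext f
      simp only [Pi.smul_apply, smul_eq_mul, RingHom.id_apply, mul_sum]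
      exact sum_congr rfl fun e _ => by ring
  obtain ⟨B, hB⟩ : ∃ B : Set (E → ℝ), B = Set.Icc (fun _ => 0) (fun e => 2 * w₀ e.1) := ⟨_, rfl⟩
  have hcont : Continuous Φ := Φ.continuous_of_finiteDimensional
  have hcomp : IsCompact (Φ '' B) := by
    rw [hB]
    exact isCompact_Icc.image hcont
  have hconv : Convex ℝ (Φ '' B) := by
    rw [hB]
    exact (convex_Icc _ _).linear_image Φ
  by_cases hb : (fun f : F => b f.1) ∈ Φ '' B
  · obtain ⟨w, hw, hwb⟩ := hb
    rw [hB] at hw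
    refine ⟨fun e => if he : e ∈ E then w ⟨e, he⟩ else 0, ?_, ?_⟩
    · intro e he
      simp only [dif_pos he]
      exact ⟨hw.1 ⟨e, he⟩, hw.2 ⟨e, he⟩⟩
    · intro f hf
      have h1 := congrFun hwb ⟨f, hf⟩
      rw [hΦ] at h1
      simp only at h1
      rw [← h1, ← Finset.sum_coe_sort E]
      refine sum_congr rfl fun e _ => ?_
      simp only [dif_pos e.2]
  · exfalso
    obtain ⟨φ, u, h1, h2⟩ := geometric_hahn_banach_closed_point hconv hcomp.isClosed hb
    obtain ⟨y, hy⟩ : ∃ y : X → ℝ, y = fun f => if hf : f ∈ F then φ (Pi.single ⟨f, hf⟩ 1) else 0 :=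
      ⟨_, rfl⟩
    have hφ : ∀ v : F → ℝ, φ v = ∑ f : F, y f.1 * v f := by
      intro v
      have e1 : v = ∑ f : F, v f • (Pi.single f (1 : ℝ) : F → ℝ) := by
        funext g
        rw [Finset.sum_apply]
        simp [Pi.single_apply]
      conv_lhs => rw [e1]
      rw [map_sum]
      refine sum_congr rfl fun f _ => ?_
      rw [map_smul, hy]
      simp only [dif_pos f.2, Subtype.coe_eta, smul_eq_mul]
      ring
    obtain ⟨Yf, hYf⟩ : ∃ Yf : Y → ℝ, Yf = fun e => ∑ f ∈ F, A f e * y f := ⟨_, rfl⟩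
    have hswap : ∀ w : Y → ℝ, ∑ f ∈ F, y f * ∑ e ∈ E, A f e * w e = ∑ e ∈ E, w e * Yf e := by
      intro w
      rw [hYf]
      simp only [mul_sum]
      rw [sum_comm]
      refine sum_congr rfl fun e _ => sum_congr rfl fun f _ => by ring
    obtain ⟨w, hw⟩ : ∃ w : Y → ℝ, w = fun e => if 0 < Yf e then 2 * w₀ e else 0 := ⟨_, rfl⟩
    have hwY : ∀ e, w e * Yf e = w₀ e * (Yf e + |Yf e|) := by
      intro e
      rw [hw]
      by_cases hp : 0 < Yf e
      · simp only [if_pos hp, abs_of_pos hp]; ring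
      · simp only [if_neg hp, abs_of_nonpos (not_lt.1 hp)]; ring
    have h3 := h1 (Φ (fun e => w e.1)) ⟨fun e => w e.1, by
      rw [hB]
      constructor
      · intro e
        simp only [hw]
        split_ifs
        · have := hw₀ e.1; positivity
        · exact le_rfl
      · intro e
        simp only [hw]
        split_ifs
        · exact le_rfl
        · have := hw₀ e.1; positivity, rfl⟩
    have h4 : φ (Φ (fun e => w e.1)) = ∑ e ∈ E, w₀ e * (Yf e + |Yf e|) := by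
      rw [hφ, ← sum_congr rfl (fun e _ => hwY e), ← hswap w, ← Finset.sum_coe_sort F]
      refine sum_congr rfl fun f _ => ?_
      rw [hΦ, ← Finset.sum_coe_sort E]
    have h5 : φ (fun f : F => b f.1) = ∑ f ∈ F, y f * b f := by
      rw [hφ, ← Finset.sum_coe_sort F]
    have h6 := h y
    have h7 : ∑ f ∈ F, y f * (b f - ∑ e ∈ E, A f e * w₀ e) =
        ∑ f ∈ F, y f * b f - ∑ e ∈ E, w₀ e * Yf e := by
      rw [← hswap w₀, ← sum_sub_distrib]
      exact sum_congr rfl fun f _ => by ring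
    have h8 : ∑ e ∈ E, w₀ e * (Yf e + |Yf e|) = ∑ e ∈ E, w₀ e * Yf e + ∑ e ∈ E, w₀ e * |Yf e| := by
      rw [← sum_add_distrib]
      exact sum_congr rfl fun e _ => by ring
    rw [h7] at h6
    have h9 : ∑ e ∈ E, w₀ e * |∑ f ∈ F, A f e * y f| = ∑ e ∈ E, w₀ e * |Yf e| := by
      rw [hYf]
    rw [h9] at h6
    linarith

end Pool.Agent.TH948.HT
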